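import Pool.Agent.W402.HI.Final

/-!
# Hyperinvariant subspaces: resolvent growth at a rectifiable curve, and perturbations

`X` is a complex Banach space, `Γ` a rectifiable curve (a Lipschitz image of `[0,1]`; no other
regularity, self-intersections allowed), `U` an open set. Everything is local: nothing is assumed
about the spectrum and the resolvent outside `U`.

(1) If the spectrum of `T` in `U` lies on `Γ`, the resolvent of `T` in `U` is at most
`exp (C / dist(z, Γ) ^ k)`, `U` meets the spectrum and the spectrum has two points, then `T` has a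
nontrivial closed hyperinvariant subspace.

(2)-(4) The same holds for `S + K` if the resolvent of `S` grows at most like `dist(z, Γ) ^ (-k)` and the
approximation numbers of `K` are `O(m ^ (-ε))`, or if it grows at most like `exp (C / dist(z, Γ) ^ k)`
and the approximation numbers of `K` are `O(exp (-m ^ ε))`, and in general if the growth of the
resolvent and the decay of the approximation numbers match.

(5) If the Weyl spectrum of `S` has two points, one of them in `U`, then (2)-(4) apply to all these `K`.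

(6), (7) Hilbert spaces: `N + K`, `N` normal with spectrum on `Γ` (in `U`), `K` in a Schatten class.

The theorems are those of the project HI of the starting library (`Pool.Agent.W402.HI`, helper402, with
helpers 816, 261, 613, 778, 85, 366, 125, 324, 991, 577, 806, 32, 287, 340, 320): a separation theorem for
asymptotically holomorphic functions of `T` on generic vertical lines, and perturbation determinants.
-/

set_option autoImplicit false

open Metric

namespace Pool.Agent.Results.MP_5ac32f_an.CurvePerturbations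

section Defs

variable {X : Type} [NormedAddCommGroup X] [NormedSpace ℂ X]

/-- `T` has a closed subspace other than `0` and `X` which is invariant under all operators that
commute with `T`. -/
def HasHyper (T : X →L[ℂ] X) : Prop :=
  ∃ V : Submodule ℂ X, IsClosed (V : Set X) ∧ V ≠ ⊥ ∧ V ≠ ⊤ ∧
    ∀ Q : X →L[ℂ] X, Q * T = T * Q → ∀ x ∈ V, Q x ∈ V

/-- The rank of `G` is finite and at most `r`. -/
def RankLE (G : X →L[ℂ] X) (r : ℝ) : Prop :=
  FiniteDimensional ℂ (LinearMap.range (G : X →ₗ[ℂ] X)) ∧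
    (Module.finrank ℂ (LinearMap.range (G : X →ₗ[ℂ] X)) : ℝ) ≤ r

/-- The approximation number `a_m(K)`: the distance in operator norm from `K` to the set of
operators of rank at most `m`. -/
noncomputable def approxNumber (K : X →L[ℂ] X) (m : ℕ) : ℝ :=
  sInf {r : ℝ | ∃ G : X →L[ℂ] X, RankLE G m ∧ r = ‖K - G‖}

/-- `a_m(K) = O(m ^ (-ε))` for some `ε > 0` -/
def PolyDecay (K : X →L[ℂ] X) : Prop :=
  ∃ C ε : ℝ, 0 < ε ∧ ∀ m : ℕ, 1 ≤ m → approxNumber K m ≤ C / (m : ℝ) ^ ε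

/-- `a_m(K) = O(exp (- m ^ ε))` for some `ε > 0` -/
def ExpDecay (K : X →L[ℂ] X) : Prop :=
  ∃ C ε : ℝ, 0 < ε ∧ ∀ m : ℕ, 1 ≤ m → approxNumber K m ≤ C * Real.exp (-(m : ℝ) ^ ε)

/-- `K` belongs to a Schatten class (of its approximation numbers): `∑ a_m(K) ^ p < ∞` for some
`p > 0`. -/
def InSchatten (K : X →L[ℂ] X) : Prop :=
  ∃ p : ℝ, 0 < p ∧ Summable fun m : ℕ => approxNumber K m ^ p

/-- In `U`, the spectrum of `T` lies on `Γ` and `‖(z - T)⁻¹‖ ≤ C / dist(z, Γ) ^ k`. -/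
def PolyGrowth (T : X →L[ℂ] X) (Γ U : Set ℂ) : Prop :=
  ∃ (C : ℝ) (k : ℕ), ∀ z ∈ U, z ∉ Γ → z ∈ resolventSet ℂ T ∧ ‖resolvent T z‖ ≤ C / infDist z Γ ^ k

/-- In `U`, the spectrum of `T` lies on `Γ` and `‖(z - T)⁻¹‖ ≤ exp (C / dist(z, Γ) ^ k)`. -/
def ExpGrowth (T : X →L[ℂ] X) (Γ U : Set ℂ) : Prop :=
  ∃ (C : ℝ) (k : ℕ), ∀ z ∈ U, z ∉ Γ → z ∈ resolventSet ℂ T ∧
    ‖resolvent T z‖ ≤ Real.exp (C / infDist z Γ ^ k)

/-- The growth of the resolvent of `S` at `Γ` in `U` matches the approximability of `K`: for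
`0 < δ ≤ 1` there are `G` of rank at most `C / δ ^ k` and `1 ≤ R ≤ exp (C / δ ^ k)` such that
`‖K - G‖ R ≤ 1 / 2` and `‖(z - S)⁻¹‖ ≤ R` for all `z ∈ U` with distance at least `δ` from `Γ`. -/
def Match (S K : X →L[ℂ] X) (Γ U : Set ℂ) : Prop :=
  ∃ (C : ℝ) (k : ℕ), ∀ δ : ℝ, 0 < δ → δ ≤ 1 → ∃ (G : X →L[ℂ] X) (R : ℝ),
    RankLE G (C / δ ^ k) ∧ 1 ≤ R ∧ R ≤ Real.exp (C / δ ^ k) ∧ ‖K - G‖ * R ≤ 1 / 2 ∧
    ∀ z ∈ U, δ ≤ infDist z Γ → z ∈ resolventSet ℂ S ∧ ‖resolvent S z‖ ≤ R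

/-- The Weyl spectrum: the points which are in the spectrum of `S + G` for all `G` of finite
rank. -/
def weyl (S : X →L[ℂ] X) : Set ℂ :=
  {z | ∀ G : X →L[ℂ] X, FiniteDimensional ℂ (LinearMap.range (G : X →ₗ[ℂ] X)) →
    z ∈ spectrum ℂ (S + G)}

end Defs

/-- `Γ` is a Lipschitz image of `[0, 1]`. -/
def Rectifiable (Γ : Set ℂ) : Prop :=
  ∃ (γ : ℝ → ℂ) (L : NNReal), LipschitzWith L γ ∧ Γ = γ '' Set.Icc 0 1

/-- the pairs `(S, K)` to which (2), (3), (4) apply -/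
def Admissible {X : Type} [NormedAddCommGroup X] [NormedSpace ℂ X] (S K : X →L[ℂ] X)
    (Γ U : Set ℂ) : Prop :=
  (PolyGrowth S Γ U ∧ PolyDecay K) ∨ (ExpGrowth S Γ U ∧ ExpDecay K) ∨ Match S K Γ U

section aux

variable {X : Type} [NormedAddCommGroup X] [NormedSpace ℂ X]

theorem bdd (K : X →L[ℂ] X) (m : ℕ) :
    BddBelow {r : ℝ | ∃ G : X →L[ℂ] X, RankLE G m ∧ r = ‖K - G‖} := by
  refine ⟨0, ?_⟩
  rintro r ⟨G, -, rfl⟩
  exact norm_nonneg _

theorem ne (K : X →L[ℂ] X) (m : ℕ) :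
    {r : ℝ | ∃ G : X →L[ℂ] X, RankLE G m ∧ r = ‖K - G‖}.Nonempty := by
  have h0 : LinearMap.range ((0 : X →L[ℂ] X) : X →ₗ[ℂ] X) = ⊥ := LinearMap.range_zero
  refine ⟨‖K - 0‖, 0, ⟨?_, ?_⟩, rfl⟩
  · rw [h0]; infer_instance
  · rw [h0]; simp

theorem approx_nonneg (K : X →L[ℂ] X) (m : ℕ) : 0 ≤ approxNumber K m := by
  refine le_csInf (ne K m) ?_
  rintro r ⟨G, -, rfl⟩
  exact norm_nonneg _

theorem approx_anti (K : X →L[ℂ] X) {m n : ℕ} (h : m ≤ n) :
    approxNumber K n ≤ approxNumber K m := by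
  refine csInf_le_csInf (bdd K n) (ne K m) ?_
  rintro r ⟨G, ⟨h1, h2⟩, rfl⟩
  exact ⟨G, ⟨h1, h2.trans (by exact_mod_cast h)⟩, rfl⟩

theorem exists_near (K : X →L[ℂ] X) (m : ℕ) {b : ℝ} (h : approxNumber K m < b) :
    ∃ G : X →L[ℂ] X, FiniteDimensional ℂ (LinearMap.range (G : X →ₗ[ℂ] X)) ∧
      Module.finrank ℂ (LinearMap.range (G : X →ₗ[ℂ] X)) ≤ m ∧ ‖K - G‖ ≤ b := by
  obtain ⟨r, ⟨G, ⟨hG1, hG2⟩, rfl⟩, hr⟩ := exists_lt_of_csInf_lt (ne K m) h
  exact ⟨G, hG1, by exact_mod_cast hG2, hr.le⟩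

theorem decay_of {K : X →L[ℂ] X} (h : PolyDecay K) : Pool.Agent.W402.HI.ApproxDecay K := by
  obtain ⟨C, ε, hε, h⟩ := h
  refine ⟨C + 1, ε, hε, fun m hm => exists_near K m ?_⟩
  have hm0 : (0 : ℝ) < m := by exact_mod_cast hm
  refine (h m hm).trans_lt ?_
  have : (0 : ℝ) < (m : ℝ) ^ ε := by positivity
  gcongr
  linarith

theorem expdecay_of {K : X →L[ℂ] X} (h : ExpDecay K) : Pool.Agent.W402.HI.Asm.ExpDecay K := by
  obtain ⟨C, ε, hε, h⟩ := h
  refine ⟨C + 1, ε, hε, fun m hm => exists_near K m ?_⟩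
  refine (h m hm).trans_lt ?_
  have : (0 : ℝ) < Real.exp (-(m : ℝ) ^ ε) := Real.exp_pos _
  gcongr
  linarith

theorem decay_of_summable {K : X →L[ℂ] X} (h : InSchatten K) : PolyDecay K := by
  obtain ⟨p, hp, hs⟩ := h
  set S : ℝ := ∑' m : ℕ, approxNumber K m ^ p with hS
  have hS0 : 0 ≤ S := tsum_nonneg fun m => Real.rpow_nonneg (approx_nonneg K m) _
  refine ⟨S ^ (1 / p), 1 / p, by positivity, fun m hm => ?_⟩
  have hm0 : (0 : ℝ) < m := by exact_mod_cast hm
  have h1 : (m : ℝ) * approxNumber K m ^ p ≤ S := by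
    calc (m : ℝ) * approxNumber K m ^ p = ∑ _i ∈ Finset.range m, approxNumber K m ^ p := by simp
      _ ≤ ∑ i ∈ Finset.range m, approxNumber K i ^ p := by
          refine Finset.sum_le_sum fun i hi => ?_
          exact Real.rpow_le_rpow (approx_nonneg K m) (approx_anti K (Finset.mem_range.1 hi).le) hp.le
      _ ≤ S := hs.sum_le_tsum _ fun i _ => Real.rpow_nonneg (approx_nonneg K i) _
  have h2 : approxNumber K m ^ p ≤ S / m := by
    rw [le_div_iff₀ hm0]
    linarith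
  have h3 : (approxNumber K m ^ p) ^ (1 / p) ≤ (S / m) ^ (1 / p) :=
    Real.rpow_le_rpow (Real.rpow_nonneg (approx_nonneg K m) _) h2 (by positivity)
  rw [← Real.rpow_mul (approx_nonneg K m), mul_one_div_cancel hp.ne', Real.rpow_one,
    Real.div_rpow hS0 hm0.le] at h3
  exact h3

/-- `K` is a limit of operators of finite rank -/
theorem near_finite {K : X →L[ℂ] X} (h : Pool.Agent.W402.HI.ApproxDecay K) {η : ℝ} (hη : 0 < η) :
    ∃ G : X →L[ℂ] X, FiniteDimensional ℂ (LinearMap.range (G : X →ₗ[ℂ] X)) ∧ ‖K - G‖ < η := by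
  obtain ⟨C, ε, hε, h⟩ := h
  have h1 : Filter.Tendsto (fun m : ℕ => C / (m : ℝ) ^ ε) Filter.atTop (nhds 0) :=
    ((tendsto_rpow_atTop hε).comp tendsto_natCast_atTop_atTop).const_div_atTop C
  obtain ⟨m, hm, hm1⟩ := ((h1.eventually (gt_mem_nhds hη)).and
    (Filter.eventually_ge_atTop 1)).exists
  obtain ⟨G, g1, -, g3⟩ := h m hm1
  exact ⟨G, g1, g3.trans_lt hm⟩

/-- the Weyl spectrum of `S` is contained in the spectrum of `S + K` -/
theorem weyl_sub [CompleteSpace X] {S K : X →L[ℂ] X} (h : Pool.Agent.W402.HI.ApproxDecay K) :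
    weyl S ⊆ spectrum ℂ (S + K) := by
  intro z hz hr
  have hr' : z ∈ resolventSet ℂ (S + K) := hr
  obtain ⟨G, g1, g2⟩ := near_finite h (η := 1 / (‖resolvent (S + K) z‖ + 1)) (by positivity)
  have h1 : z ∈ resolventSet ℂ (S + K + (G - K)) := by
    refine Pool.Agent.W402.HI.Asm.resolvent_pert hr' ?_
    rw [norm_sub_rev]
    have h2 : 0 ≤ ‖resolvent (S + K) z‖ := norm_nonneg _
    calc ‖K - G‖ * ‖resolvent (S + K) z‖
        ≤ 1 / (‖resolvent (S + K) z‖ + 1) * ‖resolvent (S + K) z‖ := by gcongr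
      _ < 1 := by
          rw [one_div, inv_mul_lt_iff₀ (by positivity)]
          linarith
  have e : S + K + (G - K) = S + G := by abel
  rw [e] at h1
  exact hz G g1 h1

end aux

theorem part_one {X : Type} [NormedAddCommGroup X] [NormedSpace ℂ X] [CompleteSpace X]
    (T : X →L[ℂ] X) (Γ U : Set ℂ) (hΓ : Rectifiable Γ) (hU : IsOpen U) (hT : ExpGrowth T Γ U)
    (h1 : (spectrum ℂ T ∩ U).Nonempty) (h2 : (spectrum ℂ T).Nontrivial) : HasHyper T := by
  obtain ⟨γ, L, hγ, rfl⟩ := hΓ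
  obtain ⟨p, hp, hpU⟩ := h1
  exact Pool.Agent.W402.HI.Asm.growth Pool.Agent.W402.HI.Final.hH2
    Pool.Agent.W402.HI.Final.hH3 X T γ L hγ U hU hT ⟨p, hp, hpU⟩ h2

theorem part_two {X : Type} [NormedAddCommGroup X] [NormedSpace ℂ X] [CompleteSpace X]
    (S K : X →L[ℂ] X) (Γ U : Set ℂ) (hΓ : Rectifiable Γ) (hU : IsOpen U)
    (hA : Admissible S K Γ U) (h1 : (spectrum ℂ (S + K) ∩ U).Nonempty)
    (h2 : (spectrum ℂ (S + K)).Nontrivial) : HasHyper (S + K) := by
  obtain ⟨γ, L, hγ, rfl⟩ := hΓ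
  obtain ⟨p, hp, hpU⟩ := h1
  rcases hA with ⟨hS, hK⟩ | ⟨hS, hK⟩ | ⟨C, k, hM⟩
  · exact Pool.Agent.W402.HI.Asm.perturb Pool.Agent.W402.HI.Final.hH2
      Pool.Agent.W402.HI.Final.hE3 Pool.Agent.W324.HI.E4.main Pool.Agent.W991.HI.E5.main
      Pool.Agent.W991.HI.E5L.main X S K γ L hγ U hU (decay_of hK) hS ⟨p, hp, hpU⟩ h2
  · exact Pool.Agent.W402.HI.Asm.perturbExp Pool.Agent.W402.HI.Final.hH2
      Pool.Agent.W402.HI.Final.hE3 Pool.Agent.W324.HI.E4.main Pool.Agent.W991.HI.E5.main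
      X S K γ L hγ U hU (expdecay_of hK) hS ⟨p, hp, hpU⟩ h2
  · refine Pool.Agent.W402.HI.Asm.perturbGen Pool.Agent.W402.HI.Final.hH2
      Pool.Agent.W402.HI.Final.hE3 Pool.Agent.W324.HI.E4.main
      X S K γ L hγ U hU C k ?_ ⟨p, hp, hpU⟩ h2
    intro δ hδ hδ1
    obtain ⟨G, R, ⟨g1, g2⟩, g3⟩ := hM δ hδ hδ1
    exact ⟨G, R, g1, g2, g3⟩

theorem part_six {H : Type} [NormedAddCommGroup H] [InnerProductSpace ℂ H] [CompleteSpace H]
    (N K : H →L[ℂ] H) (Γ U : Set ℂ) (hΓ : Rectifiable Γ) (hU : IsOpen U) (hN : IsStarNormal N)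
    (hs : spectrum ℂ N ∩ U ⊆ Γ) (hK : PolyDecay K) (h1 : (spectrum ℂ (N + K) ∩ U).Nonempty)
    (h2 : ∀ c : ℂ, N + K ≠ c • (1 : H →L[ℂ] H)) : HasHyper (N + K) := by
  obtain ⟨γ, L, hγ, rfl⟩ := hΓ
  obtain ⟨p, hp, hpU⟩ := h1
  exact Pool.Agent.W402.HI.Asm.normal Pool.Agent.W402.HI.Final.hH2
    Pool.Agent.W402.HI.Final.hE3 Pool.Agent.W324.HI.E4.main Pool.Agent.W991.HI.E5.main
    Pool.Agent.W991.HI.E5L.main Pool.Agent.W577.HI.G1.main Pool.Agent.W806.HI.main
    Pool.Agent.W32.HI.G3.main H N K hN γ L hγ U hU (fun z hz hzU => hs ⟨hz, hzU⟩) (decay_of hK)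
    ⟨p, hp, hpU⟩ (fun ⟨c, hc⟩ => h2 c hc)

/-- Part (1): growth of the resolvent at a rectifiable curve -/
def PartOne : Prop :=
  ∀ (X : Type) [NormedAddCommGroup X] [NormedSpace ℂ X] [CompleteSpace X] (T : X →L[ℂ] X)
    (Γ U : Set ℂ), Rectifiable Γ → IsOpen U → ExpGrowth T Γ U → (spectrum ℂ T ∩ U).Nonempty →
    (spectrum ℂ T).Nontrivial → HasHyper T

/-- Part (2): perturbations -/
def PartTwo : Prop :=
  ∀ (X : Type) [NormedAddCommGroup X] [NormedSpace ℂ X] [CompleteSpace X] (S K : X →L[ℂ] X)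
    (Γ U : Set ℂ), Rectifiable Γ → IsOpen U → Admissible S K Γ U →
    (spectrum ℂ (S + K) ∩ U).Nonempty → (spectrum ℂ (S + K)).Nontrivial → HasHyper (S + K)

/-- Part (3): all perturbations, if the Weyl spectrum meets `U` and has two points -/
def PartThree : Prop :=
  ∀ (X : Type) [NormedAddCommGroup X] [NormedSpace ℂ X] [CompleteSpace X] (S : X →L[ℂ] X)
    (Γ U : Set ℂ), Rectifiable Γ → IsOpen U → (weyl S ∩ U).Nonempty → (weyl S).Nontrivial →
    (PolyGrowth S Γ U → ∀ K : X →L[ℂ] X, PolyDecay K → HasHyper (S + K)) ∧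
    (ExpGrowth S Γ U → ∀ K : X →L[ℂ] X, ExpDecay K → HasHyper (S + K))

/-- Part (4): perturbations of normal operators, local form -/
def PartFour : Prop :=
  ∀ (H : Type) [NormedAddCommGroup H] [InnerProductSpace ℂ H] [CompleteSpace H]
    (N K : H →L[ℂ] H) (Γ U : Set ℂ), Rectifiable Γ → IsOpen U → IsStarNormal N →
    spectrum ℂ N ∩ U ⊆ Γ → PolyDecay K → (spectrum ℂ (N + K) ∩ U).Nonempty →
    (∃ c : ℂ, N + K = c • (1 : H →L[ℂ] H)) ∨ HasHyper (N + K)

/-- Part (5): Schatten class perturbations of normal operators with spectrum on a rectifiable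
curve -/
def PartFive : Prop :=
  ∀ (H : Type) [NormedAddCommGroup H] [InnerProductSpace ℂ H] [CompleteSpace H]
    (N K : H →L[ℂ] H) (Γ : Set ℂ), Rectifiable Γ → IsStarNormal N → spectrum ℂ N ⊆ Γ →
    InSchatten K → (∃ c : ℂ, N + K = c • (1 : H →L[ℂ] H)) ∨ HasHyper (N + K)

/-- **Theorem.** Let `Γ` be a Lipschitz image of `[0,1]` in `ℂ` and `U` an open set.

(1) Let `T` be an operator on a complex Banach space whose spectrum in `U` lies on `Γ`, with
`‖(z - T)⁻¹‖ ≤ exp (C / dist(z, Γ) ^ k)` for `z ∈ U ∖ Γ`. If `U` meets the spectrum and the spectrum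
has at least two points, then `T` has a nontrivial closed hyperinvariant subspace.

(2) The same conclusion holds for `S + K` (if `U` meets the spectrum of `S + K` and this spectrum has at
least two points) if `(S, K)` is admissible: `‖(z - S)⁻¹‖ ≤ C / dist(z, Γ) ^ k` in `U ∖ Γ` and
`a_m(K) ≤ C / m ^ ε`; or `‖(z - S)⁻¹‖ ≤ exp (C / dist(z, Γ) ^ k)` in `U ∖ Γ` and
`a_m(K) ≤ C exp (- m ^ ε)`; or growth and decay match.

(3) If the Weyl spectrum of `S` meets `U` and has at least two points, then in the first two cases `S + K`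
has a nontrivial closed hyperinvariant subspace for all these `K`.

(4) Let `N` be a normal operator on a complex Hilbert space whose spectrum in `U` lies on `Γ`, and
`a_m(K) ≤ C / m ^ ε`. If `U` meets the spectrum of `N + K`, then `N + K` is scalar or has a nontrivial
closed hyperinvariant subspace. (5) In particular, if the spectrum of `N` lies on `Γ` and `K` is in a
Schatten class, then `N + K` is scalar or has a nontrivial closed hyperinvariant subspace. -/
theorem result : PartOne ∧ PartTwo ∧ PartThree ∧ PartFour ∧ PartFive := by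
  refine ⟨fun X _ _ _ T Γ U hΓ hU hT h1 h2 => part_one T Γ U hΓ hU hT h1 h2,
    fun X _ _ _ S K Γ U hΓ hU hA h1 h2 => part_two S K Γ U hΓ hU hA h1 h2,
    fun X _ _ _ S Γ U hΓ hU h1 h2 => ⟨fun hS K hK => ?_, fun hS K hK => ?_⟩,
    fun H _ _ _ N K Γ U hΓ hU hN hs hK h1 => ?_, fun H _ _ _ N K Γ hΓ hN hs hK => ?_⟩
  · have hsub := weyl_sub (S := S) (decay_of hK)
    exact part_two S K Γ U hΓ hU (Or.inl ⟨hS, hK⟩) (h1.mono (Set.inter_subset_inter_left _ hsub))
      (h2.mono hsub)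
  · have hsub := weyl_sub (S := S) (Pool.Agent.W402.HI.Asm.approx_of_exp (expdecay_of hK))
    exact part_two S K Γ U hΓ hU (Or.inr (Or.inl ⟨hS, hK⟩))
      (h1.mono (Set.inter_subset_inter_left _ hsub)) (h2.mono hsub)
  · by_cases h : ∃ c : ℂ, N + K = c • (1 : H →L[ℂ] H)
    · exact Or.inl h
    · exact Or.inr (part_six N K Γ U hΓ hU hN hs hK h1 (fun c hc => h ⟨c, hc⟩))
  · by_cases h : ∃ c : ℂ, N + K = c • (1 : H →L[ℂ] H)
    · exact Or.inl h
    · have hnt : Nontrivial H := by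
        by_contra hh
        rw [not_nontrivial_iff_subsingleton] at hh
        exact h ⟨0, by ext x; exact Subsingleton.elim _ _⟩
      refine Or.inr (part_six N K Γ Set.univ hΓ isOpen_univ hN (by simpa using hs)
        (decay_of_summable hK) ?_ (fun c hc => h ⟨c, hc⟩))
      rw [Set.inter_univ]
      exact spectrum.nonempty (N + K)

end Pool.Agent.Results.MP_5ac32f_an.CurvePerturbations
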