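import Pool.Agent.N812.IS.Fin

/-!
# Nuclear perturbations of operators with a continuous functional calculus on Banach spaces (MP_5ac32f_an)

Let `N` be an operator on a complex Banach space `X` (any Banach space, in particular separable reflexive)
with a bounded functional calculus for the continuous functions on a compact set `S`; for example a scalar
type spectral operator in the sense of Dunford. No condition is put on `S` or on the spectrum, which may have
positive area or interior points. Let `K x = ∑ v j (x) u j` with `∑ s (1 + |log s|) < ∞`, `s = ‖v j‖ ‖u j‖`. For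
every `t` outside a set which is null for all atomless measures with bounded logarithmic potential, in
particular for almost every complex `t` and for almost every real `t`, the operator `T = N + t K` is a
multiple of the identity or has a nontrivial closed hyperinvariant subspace. Moreover every point `c` of the
spectrum carries, for every `ε > 0`, a nonzero vector `x` with `‖(T - c)^n x‖ ≤ C ε ^ n` for all `n`, and
the same holds for the adjoint of `T`.

The starting results of this page on perturbations (`NuclearCouplings`, `SchattenCouplings`,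
`ExceptionalCouplings`) need that the spectrum of the unperturbed operator is a null set or thin, with an
integrable logarithm of the resolvent. Here the resolvent need not exist anywhere near the spectrum.

Proof. For a bounded function `g` of compact support let `R(g) = ∫ g(z) (z - N)⁻¹ dA = h(N)`,
`h(w) = ∫ g(z) / (z - w) dA(z)`. The scalar functions `v i ((z - N)⁻¹ u j)` exist for almost every `z` as area
Cauchy transforms of the measures of the calculus, with local weak `L²` bounds, and
`∑ s (1 + |log s|) < ∞` makes the matrix `F(z)` of these functions locally summable in the sense of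
`∑ min(|.|, |.|²)`. Estimates for the regularised determinants of the sections and the potential theoretic
lemma of the library show that for almost every `t` the inverse of `1 - t F(z)` exists for almost every `z` and
has a locally integrable logarithm. Weights `g` with `|g| (1 + ‖c‖) ≤ 1` on a thin annulus about `p`,
orthogonal to the polynomials but not to `1 / (z - p)` (Hahn-Banach in a weighted `L¹`, Jensen's
inequality), give vectors `X k` with `(T - p) X k = X (k + 1)` and `‖X k‖ ≤ C ε ^ k`. If the spectrum has two
points, such vectors for `T` and its adjoint annihilate each other (library); if it is one point,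
`T - p` is compact, and Lomonosov's theorem applies.

From the library: `Y271.RO`, `R277.SP` (area Cauchy transforms, functional calculus, annihilation), `R276.CP`
(determinants, potentials), `W577.HI.G1` (Lomonosov), `Y891.NK` (area and length have bounded potentials). The
Hilbert space case, with all Schatten classes below two, is `MP_f981b0_an/NormalPlusSchatten`.
-/

set_option autoImplicit false

open MeasureTheory Metric
open scoped ENNReal NNReal

namespace Pool.Agent.Results.MP_5ac32f_an.ScalarTypeNuclear

section Defs

variable {X : Type} [NormedAddCommGroup X] [NormedSpace ℂ X]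

/-- `T` is a multiple of the identity. -/
def IsScalar (T : X →L[ℂ] X) : Prop := ∃ c : ℂ, T = c • (1 : X →L[ℂ] X)

/-- `T` has a closed subspace, neither `{0}` nor the whole space, which is invariant under every
bounded operator commuting with `T`. -/
def HasHyperinvariant (T : X →L[ℂ] X) : Prop :=
  ∃ V : Submodule ℂ X, IsClosed (V : Set X) ∧ V ≠ ⊥ ∧ V ≠ ⊤ ∧
    ∀ Q : X →L[ℂ] X, Q * T = T * Q → ∀ x ∈ V, Q x ∈ V

/-- For every point `c` of the spectrum and every `ε > 0` there is a nonzero vector `x` with
`‖(T - c)^n x‖ ≤ C ε ^ n` for all `n`. -/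
def SmallLocalSpectra (T : X →L[ℂ] X) : Prop :=
  ∀ c ∈ spectrum ℂ T, ∀ ε : ℝ, 0 < ε → ∃ (x : X) (C : ℝ), x ≠ 0 ∧
    ∀ n : ℕ, ‖((T - c • (1 : X →L[ℂ] X)) ^ n) x‖ ≤ C * ε ^ n

/-- The adjoint `f ↦ f ∘ T` on the dual space. -/
noncomputable def adjoint (T : X →L[ℂ] X) : (X →L[ℂ] ℂ) →L[ℂ] (X →L[ℂ] ℂ) :=
  (ContinuousLinearMap.compL ℂ X X ℂ).flip T

/-- The conclusion of the theorem for one operator. -/
def Good (T : X →L[ℂ] X) : Prop :=
  (IsScalar T ∨ HasHyperinvariant T) ∧ SmallLocalSpectra T ∧ SmallLocalSpectra (adjoint T)

/-- The algebra homomorphism `Φ` is a bounded functional calculus of `N` for the continuous functions on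
the compact set `S`. -/
structure IsCalculus (S : Set ℂ) (Φ : C(S, ℂ) →ₐ[ℂ] (X →L[ℂ] X)) (N : X →L[ℂ] X) : Prop where
  compact : IsCompact S
  bounded : ∃ M : ℝ, ∀ (h : C(S, ℂ)) (B : ℝ), 0 ≤ B → (∀ s, ‖h s‖ ≤ B) → ‖Φ h‖ ≤ M * B
  identity : ∀ h : C(S, ℂ), (∀ s : S, h s = s) → Φ h = N

/-- `K x = ∑ v j (x) u j` with `∑ s (1 + |log s|) < ∞`, `s = ‖v j‖ ‖u j‖`. -/
def LogNuclear (K : X →L[ℂ] X) : Prop :=
  ∃ (u : ℕ → X) (v : ℕ → (X →L[ℂ] ℂ)),
    (Summable fun j => ‖v j‖ * ‖u j‖ * (1 + |Real.log (‖v j‖ * ‖u j‖)|)) ∧
    ∀ x, HasSum (fun j => v j x • u j) (K x)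

end Defs

/-- The measure `m` has no atoms, and on every disc `|t| < R` it is finite and
`∫ log⁺ (1 / |t - s|) dm(t)` is bounded in `s ∈ ℂ`. -/
def BoundedPotential (m : Measure ℂ) : Prop :=
  (∀ s : ℂ, m {s} = 0) ∧
  ∀ R : ℝ, m (ball (0:ℂ) R) ≠ ⊤ ∧ ∃ C : ℝ≥0, ∀ s : ℂ,
    ∫⁻ t in ball (0:ℂ) R, ENNReal.ofReal (Real.posLog ‖t - s‖⁻¹) ∂m ≤ C

/-- The exceptional set of the coupling constants is null for all measures with bounded logarithmic
potential, for the area and for the length on the real line. -/
def Generic (P : ℂ → Prop) : Prop :=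
  (∀ m : Measure ℂ, BoundedPotential m → ∀ᵐ t ∂m, P t) ∧ (∀ᵐ t : ℂ, P t) ∧ (∀ᵐ t : ℝ, P (t : ℂ))

theorem result (X : Type) [NormedAddCommGroup X] [NormedSpace ℂ X] [CompleteSpace X] (S : Set ℂ)
    (Φ : C(S, ℂ) →ₐ[ℂ] (X →L[ℂ] X)) (N K : X →L[ℂ] X) (hΦ : IsCalculus S Φ N) (hK : LogNuclear K) :
    Generic fun t => Good (N + t • K) := by
  have : CompactSpace S := isCompact_iff_compactSpace.1 hΦ.compact
  obtain ⟨M, hM⟩ := hΦ.bounded
  have hF : Pool.Agent.R277.SP.FC Φ N |M| := by
    refine ⟨abs_nonneg M, fun h => ?_, hΦ.identity _ fun s => rfl⟩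
    exact (hM h ‖h‖ (norm_nonneg _) fun s => h.norm_coe_le_norm s).trans
      (mul_le_mul_of_nonneg_right (le_abs_self M) (norm_nonneg _))
  have main : ∀ m : Measure ℂ, Pool.Agent.R276.CP.LogBd m → ∀ᵐ t ∂m, Good (N + t • K) := by
    intro m hm
    filter_upwards [Pool.Agent.N812.IS.scalar hF hK hm] with t ht
    exact ht
  exact ⟨fun m hm => main m (Pool.Agent.N812.IS.logbd_of hm.1 hm.2),
    Pool.Agent.N812.IS.three main⟩

end Pool.Agent.Results.MP_5ac32f_an.ScalarTypeNuclear
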