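import Pool.Agent.N812.BC.Ad

/-!
# Nuclear perturbations of triangular operators with a thick middle entry (MP_5ac32f_an)

Let `A` be an operator on a complex Banach space `X ≅ X₀ × X₁ × X₂` which is upper triangular,

    A = ( R₀  *   * )
        ( 0   N   * )
        ( 0   0   R₂ )

Nothing is supposed about the operators `R₀`, `R₂` and the entries `*`; `X₀ = 0` and `X₂ = 0` are allowed, and
`N ⊕ R` with an arbitrary operator `R` on an arbitrary Banach space is an example. The middle entry `N` has a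
bounded functional calculus `h ↦ h(N)` for the continuous functions on a compact set `S`, for example it is a
scalar type spectral operator, and there are `x ∈ X₁` and `y ∈ X₁'` whose orbits `h ↦ h(N) x`, `h ↦ y ∘ h(N)` are
*thick* for the exponent `p`: there is a finite measure `ν` on `S` with a bounded potential of order `τ`,
`1 < τ < 2`, `∫ |z - w|^(-τ) dν(z) ≤ D` for all `w ∈ S` (so `ν` has dimension greater than one), such that
`‖h(N) x‖ ≤ C (∫ |h|^q dν)^(1/q)`, `q ≥ τ / (τ - 1)` and `p (1 / τ + 1 - 1 / q) ≤ 1`; and `x`, `y` charge the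
complement of the spectra of `R₀` and `R₂`: `h(N) x ≠ 0` for a continuous `h` which vanishes on these spectra.
Let `K` be a `p`-nuclear operator on the whole space `X`, `K x = ∑ v j (x) u j`, `∑ (‖v j‖ ‖u j‖)^p < ∞`.

Then `T = A + K` has a nontrivial closed hyperinvariant subspace. Moreover for every open disc of centre `c` and
radius `r` which is charged by `x` off the spectra of `R₀` and `R₂` there is a vector `w ≠ 0` with
`‖(T - c)^n w‖ ≤ C r^n` for all `n`, and the same for the adjoint of `T` and `y`.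

No genericity of the perturbation and no smallness of its norm is needed, and the rank of `K` is infinite in
general. For `X₀ = X₂ = 0` this is part (2) of `ThickOrbits` of this page. The operator `A` itself has of course
invariant subspaces, but `A + K` need not have those of `A`. On a Hilbert space, with orthogonal sums and a normal
operator `N`, see `MP_f981b0_an/ThickNormalPart`; the proof there uses spectral projections of `N` (the
Sylvester equation), which do not exist here.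

Proof. Let `z₀` be in the support of `ν`, off the spectra of `R₀`, `R₂`. Near `z₀` the resolvents of `R₀` and `R₂`
are power series, `(z - R₀)⁻¹ = ∑ (-1)^k (z - z₀)^k W^(k+1)`, and so the operators `R_A(g) = ∫ g(z) (z - A)⁻¹ dν`,
`g` carried by a small disc `D` with centre `z₀`, can be defined as series in the operators
`∫ g(z) (z - z₀)^k (z - N)⁻¹ dν`, which exist by the calculus. This gives
`A R_A(g) = R_A(z g) - ∫ g dν` and `‖R_A(g)‖ ≤ C ‖g‖` in `L^{τ'}(ν)`. In the same way the orbit of `x`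
extends to `Λ : L^q(ν | D) → X` with `A Λ(g) = Λ(z g)`. Then the vectors
`X(g) = Λ(g η) + ∑ j R_A(g ξ j) u j`, `ξ = ρ η + G ξ`, `G i j (z) = v i ((z - A)⁻¹ u j)` satisfy
`(A + K) X(g) = X(z g)`, as in `ThickOrbits`. The adjoint of `A` has the same form, with `R₂'`, `N'`, `R₀'`. Vectors
of this kind for `T` and its adjoint at two different points annihilate each other across the commutant.

From the library: `Y271.RO`, `R277.SP` (functional calculus, annihilation).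
-/

set_option autoImplicit false

open MeasureTheory Metric
open scoped ENNReal NNReal

namespace Pool.Agent.Results.MP_5ac32f_an.ThickMiddleEntry

section Defs

variable {X X₀ X₁ X₂ : Type} [NormedAddCommGroup X] [NormedSpace ℂ X]
  [NormedAddCommGroup X₀] [NormedSpace ℂ X₀] [NormedAddCommGroup X₁] [NormedSpace ℂ X₁]
  [NormedAddCommGroup X₂] [NormedSpace ℂ X₂]

/-- `T` has a closed subspace, neither `{0}` nor the whole space, which is invariant under every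
bounded operator commuting with `T`. -/
def HasHyperinvariant (T : X →L[ℂ] X) : Prop :=
  ∃ V : Submodule ℂ X, IsClosed (V : Set X) ∧ V ≠ ⊥ ∧ V ≠ ⊤ ∧
    ∀ Q : X →L[ℂ] X, Q * T = T * Q → ∀ x ∈ V, Q x ∈ V

/-- There is a nonzero vector `w` with `‖(T - c)^n w‖ ≤ C r ^ n` for all `n`. -/
def HasLocalVector (T : X →L[ℂ] X) (c : ℂ) (r : ℝ) : Prop :=
  ∃ (w : X) (C : ℝ), w ≠ 0 ∧ ∀ n : ℕ, ‖((T - c • (1 : X →L[ℂ] X)) ^ n) w‖ ≤ C * r ^ n

/-- The adjoint `f ↦ f ∘ T` on the dual space. -/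
noncomputable def adjoint (T : X →L[ℂ] X) : (X →L[ℂ] ℂ) →L[ℂ] (X →L[ℂ] ℂ) :=
  (ContinuousLinearMap.compL ℂ X X ℂ).flip T

/-- `A` is upper triangular with the diagonal entries `R₀`, `N`, `R₂`, for an identification `e` of
`X₀ × X₁ × X₂` with `X` (linear, bounded, with bounded inverse) and some bounded operators `α`, `β`, `γ`
above the diagonal. -/
def UpperTriangular (A : X →L[ℂ] X) (R₀ : X₀ →L[ℂ] X₀) (N : X₁ →L[ℂ] X₁)
    (R₂ : X₂ →L[ℂ] X₂) : Prop :=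
  ∃ (e : (X₀ × X₁ × X₂) ≃L[ℂ] X) (α : X₁ →L[ℂ] X₀) (β : X₂ →L[ℂ] X₀) (γ : X₂ →L[ℂ] X₁),
    ∀ x y w, A (e (x, y, w)) = e (R₀ x + α y + β w, N y + γ w, R₂ w)

/-- The algebra homomorphism `Φ` is a bounded functional calculus of `N` for the continuous functions on
the compact set `S`. -/
structure IsCalculus (S : Set ℂ) (Φ : C(S, ℂ) →ₐ[ℂ] (X →L[ℂ] X)) (N : X →L[ℂ] X) : Prop where
  compact : IsCompact S
  bounded : ∃ M : ℝ, ∀ (h : C(S, ℂ)) (B : ℝ), 0 ≤ B → (∀ s, ‖h s‖ ≤ B) → ‖Φ h‖ ≤ M * B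
  identity : ∀ h : C(S, ℂ), (∀ s : S, h s = s) → Φ h = N

/-- `K x = ∑ v j (x) u j` with `∑ (‖v j‖ ‖u j‖)^p < ∞`. -/
def PNuclear (p : ℝ) (K : X →L[ℂ] X) : Prop :=
  ∃ (u : ℕ → X) (v : ℕ → (X →L[ℂ] ℂ)),
    (Summable fun j => (‖v j‖ * ‖u j‖) ^ p) ∧ ∀ x, HasSum (fun j => v j x • u j) (K x)

/-- There are a finite measure `ν` on `S` with a bounded potential of order `τ`, `1 < τ < 2`, and
`q ≥ τ / (τ - 1)` with `p (1 / τ + 1 - 1 / q) ≤ 1` such that `‖A h‖ ≤ C ‖h‖` with the norm of `L^q(ν)`, for the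
restrictions `h` to `S` of the continuous functions on the plane. -/
def ThickOrbit (S : Set ℂ) (p : ℝ) (A : C(S, ℂ) → X) : Prop :=
  ∃ (ν : Measure ℂ) (τ q C : ℝ) (D : ℝ≥0), ν Set.univ ≠ ⊤ ∧ ν Sᶜ = 0 ∧ 1 < τ ∧ τ < 2 ∧
    τ / (τ - 1) ≤ q ∧ p * (1 / τ + 1 - 1 / q) ≤ 1 ∧
    (∀ w ∈ S, ∫⁻ z, ‖z - w‖ₑ ^ (-τ) ∂ν ≤ D) ∧
    ∀ h : C(ℂ, ℂ), ‖A (h.restrict S)‖ ≤ C * (∫ z, ‖h z‖ ^ q ∂ν) ^ (1 / q)

/-- `A h ≠ 0` for some continuous function `h` on the plane which vanishes outside the set `U` and on the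
set `E`. -/
def Charges (S E : Set ℂ) (A : C(S, ℂ) → X) (U : Set ℂ) : Prop :=
  ∃ h : C(ℂ, ℂ), (∀ z, z ∉ U → h z = 0) ∧ (∀ z ∈ E, h z = 0) ∧ A (h.restrict S) ≠ 0

end Defs

lemma fc {X : Type} [NormedAddCommGroup X] [NormedSpace ℂ X] {S : Set ℂ} [CompactSpace S]
    {Φ : C(S, ℂ) →ₐ[ℂ] (X →L[ℂ] X)} {N : X →L[ℂ] X} (hΦ : IsCalculus S Φ N) :
    ∃ M, Pool.Agent.R277.SP.FC Φ N M := by
  obtain ⟨M, hM⟩ := hΦ.bounded
  refine ⟨|M|, abs_nonneg M, fun h => ?_, hΦ.identity _ fun s => rfl⟩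
  exact (hM h ‖h‖ (norm_nonneg _) fun s => h.norm_coe_le_norm s).trans
    (mul_le_mul_of_nonneg_right (le_abs_self M) (norm_nonneg _))

lemma plt {p τ q : ℝ} (hτ : 1 < τ) (hτ2 : τ < 2) (hq : τ / (τ - 1) ≤ q)
    (hpq : p * (1 / τ + 1 - 1 / q) ≤ 1) : p < 1 := by
  have h1 : 0 < τ - 1 := by linarith
  have h2 : 2 < τ / (τ - 1) := by
    rw [lt_div_iff₀ h1]
    linarith
  have h3 : 0 < q := by linarith
  have h4 : 1 / q < 1 / 2 := one_div_lt_one_div_of_lt (by norm_num) (by linarith)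
  have h5 : 1 / 2 < 1 / τ := one_div_lt_one_div_of_lt (by linarith) hτ2
  by_contra hcon
  push Not at hcon
  nlinarith

/-- one side -/
lemma side {X₀ X₁ X₂ Z : Type} [NormedAddCommGroup X₀] [NormedSpace ℂ X₀]
    [NormedAddCommGroup X₁] [NormedSpace ℂ X₁] [NormedAddCommGroup X₂] [NormedSpace ℂ X₂]
    [NormedAddCommGroup Z] [NormedSpace ℂ Z] [CompleteSpace X₀] [CompleteSpace X₁]
    [CompleteSpace X₂] {R₀ : X₀ →L[ℂ] X₀} {N : X₁ →L[ℂ] X₁} {R₂ : X₂ →L[ℂ] X₂} {S : Set ℂ}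
    [CompactSpace S] (hS : IsCompact S) {Φ : C(S, ℂ) →ₐ[ℂ] (X₁ →L[ℂ] X₁)} {M : ℝ}
    (hF : Pool.Agent.R277.SP.FC Φ N M)
    {B K : X₀ × X₁ × X₂ →L[ℂ] X₀ × X₁ × X₂} (hB : Pool.Agent.N812.BC.Tri B R₀ N R₂) {p : ℝ}
    (hp : 0 < p) (hK : Pool.Agent.N812.BA.PNuc p K) {x : X₁}
    (hx : ThickOrbit S p (fun h => Φ h x)) {T : Z →L[ℂ] Z} {J : X₀ × X₁ × X₂ →L[ℂ] Z}
    (hJ : Function.Injective J) (hT : ∀ y, T (J y) = J ((B + K) y)) :
    (∀ (c : ℂ) (r : ℝ), Charges S (spectrum ℂ R₀ ∪ spectrum ℂ R₂) (fun h => Φ h x) (ball c r) →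
      HasLocalVector T c r) ∧
    (Charges S (spectrum ℂ R₀ ∪ spectrum ℂ R₂) (fun h => Φ h x) Set.univ →
      Pool.Agent.N812.BB.Many (B + K)) := by
  obtain ⟨ν, τ, q, C, D, a1, a2, a3, a4, a5, a6, a7, a8⟩ := hx
  have : IsFiniteMeasure ν := ⟨lt_top_iff_ne_top.2 a1⟩
  have key := fun (c' c₁ : ℂ) (r₁ : ℝ) (h : C(ℂ, ℂ)) => Pool.Agent.N812.BC.one hF a3 a4.le a7 a2 a5
    ⟨C, a8⟩ hp a6 hK hB c' c₁ r₁ h
  refine ⟨fun c r hc => ?_, fun hc c' => ?_⟩
  · obtain ⟨h, h1, h2, h3⟩ := hc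
    obtain ⟨z₀, hz₀, -, hch⟩ := key 0 c r h h1 (fun z hz => h2 z (Or.inl hz))
      (fun z hz => h2 z (Or.inr hz)) h3
    exact Pool.Agent.N812.BA.Chb.pow (Pool.Agent.N812.BB.Chb.map hJ hT (hch c r hz₀))
  · obtain ⟨h, -, h2, h3⟩ := hc
    obtain ⟨h', r, hr, k1, k2, k3⟩ := Pool.Agent.N812.BC.cutoff hS h
    obtain ⟨z₀, -, hz, hch⟩ := key c' 0 r h' k1 (fun z hz => k2 z (h2 z (Or.inl hz)))
      (fun z hz => k2 z (h2 z (Or.inr hz))) (by rw [k3]; exact h3)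
    exact ⟨z₀, hz, fun r hr => hch z₀ r (mem_ball_self hr)⟩

theorem result (X X₀ X₁ X₂ : Type) [NormedAddCommGroup X] [NormedSpace ℂ X] [CompleteSpace X]
    [NormedAddCommGroup X₀] [NormedSpace ℂ X₀] [CompleteSpace X₀]
    [NormedAddCommGroup X₁] [NormedSpace ℂ X₁] [CompleteSpace X₁]
    [NormedAddCommGroup X₂] [NormedSpace ℂ X₂] [CompleteSpace X₂]
    -- the triangular operator, the functional calculus of its middle entry, the perturbation
    (A K : X →L[ℂ] X) (R₀ : X₀ →L[ℂ] X₀) (N : X₁ →L[ℂ] X₁) (R₂ : X₂ →L[ℂ] X₂)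
    (S : Set ℂ) (Φ : C(S, ℂ) →ₐ[ℂ] (X₁ →L[ℂ] X₁)) (p : ℝ)
    (hA : UpperTriangular A R₀ N R₂) (hΦ : IsCalculus S Φ N) (hp : 0 < p) (hK : PNuclear p K)
    -- the vector and the functional with thick orbits
    (x : X₁) (y : X₁ →L[ℂ] ℂ)
    (hx : ThickOrbit S p (fun h => Φ h x)) (hy : ThickOrbit S p (fun h => y.comp (Φ h))) :
    (Charges S (spectrum ℂ R₀ ∪ spectrum ℂ R₂) (fun h => Φ h x) Set.univ →
      Charges S (spectrum ℂ R₀ ∪ spectrum ℂ R₂) (fun h => y.comp (Φ h)) Set.univ →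
      HasHyperinvariant (A + K)) ∧
    (∀ (c : ℂ) (r : ℝ), Charges S (spectrum ℂ R₀ ∪ spectrum ℂ R₂) (fun h => Φ h x) (ball c r) →
      HasLocalVector (A + K) c r) ∧
    (∀ (c : ℂ) (r : ℝ),
      Charges S (spectrum ℂ R₀ ∪ spectrum ℂ R₂) (fun h => y.comp (Φ h)) (ball c r) →
      HasLocalVector (adjoint (A + K)) c r) := by
  have : CompactSpace S := isCompact_iff_compactSpace.1 hΦ.compact
  obtain ⟨M, hF⟩ := fc hΦ
  have hp1 : p < 1 := by
    obtain ⟨ν, τ, q, C, D, a1, a2, a3, a4, a5, a6, a7, a8⟩ := hx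
    exact plt a3 a4 a5 a6
  obtain ⟨B, K', J, b1, b2, b3, b4⟩ := Pool.Agent.N812.BC.primal hp hA hK
  obtain ⟨B', K'', J', d1, d2, d3, d4⟩ := Pool.Agent.N812.BC.dual hp hp1 hA hK
  have s1 := side hΦ.compact hF b1 hp b2 hx b3 b4
  have s2 := side hΦ.compact hF.dual d1 hp d2 (x := y) hy d3 d4
  have hch : ∀ U : Set ℂ, Charges S (spectrum ℂ R₀ ∪ spectrum ℂ R₂) (fun h => y.comp (Φ h)) U →
      Charges S (spectrum ℂ (Pool.Agent.R277.SP.ad R₂) ∪ spectrum ℂ (Pool.Agent.R277.SP.ad R₀))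
        (fun h => Pool.Agent.R277.SP.adΦ Φ h y) U := by
    rintro U ⟨h, h1, h2, h3⟩
    refine ⟨h, h1, fun z hz => ?_, h3⟩
    rcases hz with hz | hz
    · exact h2 z (Or.inr (Pool.Agent.N812.BC.spec_ad hz))
    · exact h2 z (Or.inl (Pool.Agent.N812.BC.spec_ad hz))
  refine ⟨fun hcx hcy => ?_, s1.1, fun c r hc => s2.1 c r (hch _ hc)⟩
  exact Pool.Agent.N812.BB.main b3 d3 b4 d4 (s1.2 hcx) (s2.2 (hch _ hcy))

end Pool.Agent.Results.MP_5ac32f_an.ThickMiddleEntry
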