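import Pool.Agent.N812.BB.Fi

/-!
# Nuclear perturbations and thick spectral measures on Banach spaces (MP_5ac32f_an)

Let `N` be an operator on a complex Banach space `Y` with a bounded functional calculus `h ↦ h(N)` for the
continuous functions on a compact set `S`, for example a scalar type spectral operator. The orbit `h ↦ h(N) x` of a
vector `x` is called *thick* (for the exponent `p`) if there is a finite measure `ν` on `S` with a bounded
potential of some order `τ` between one and two, `∫ |z - w|^(-τ) dν(z) ≤ D` for all `w ∈ S` (so `ν` has dimension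
greater than one), such that `‖h(N) x‖ ≤ C (∫ |h|^q dν)^(1/q)` with `q ≥ τ / (τ - 1)` and
`p (1 / τ + 1 - 1 / q) ≤ 1`. An operator `A` on `Y` is called *thick* if `A = N + K`, where some nonzero vector has a
thick orbit and `K x = ∑ v j (x) u j`, `∑ (‖v j‖ ‖u j‖)^p < ∞`.

* Every operator `T` on a Banach space `X` such that `T J = J A` for a thick operator `A` and an injective
  bounded `J : Y → X`, and `T' J' = J' B` for the adjoint `T'`, a thick `B` and an injective `J' : V → X'`, has a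
  nontrivial closed hyperinvariant subspace.
* In particular this holds for `T = N + K` if a vector `x ≠ 0` and a functional `y ≠ 0` have thick orbits
  `h ↦ h(N) x`, `h ↦ y ∘ h(N)`. Moreover, for every open disc of centre `c` and radius `r` which is charged by `x`
  there is a vector `w ≠ 0` with `‖(T - c)^n w‖ ≤ C r^n` for all `n`, and the same for the adjoint and `y`.

No genericity of the perturbation and no smallness of its norm is needed, and the rank of `K` is infinite in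
general. Example: `N` is the multiplication by a bounded function `φ` on `L^r(μ)`, `1 < r < ∞`, and the image
of `μ` under `φ` is not singular with respect to a measure `ν` with a bounded potential of order `τ > 1`; here
`x`, `y` are indicator functions and `1 / p ≥ 1 / τ + max (1 / τ, 1 / r, 1 - 1 / r)`. For the area, all `p` with
`1 / p > 1 + |1 / 2 - 1 / r|` are allowed. The planar measure of the spectrum may be zero.

The earlier results of this page on nuclear perturbations of infinite rank (`NuclearCouplings`,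
`SchattenCouplings`, `ExceptionalCouplings`, `ScalarTypeNuclear`) treat `N + t K` for almost every `t` only;
the individual perturbations known before have finite rank or a normal unperturbed operator on a
Hilbert space (`MP_f981b0_an/ThickNormalPart`).

Proof. The operators `R(g) = ∫ g(z) (z - N)⁻¹ dν = h(N)`, `h(w) = ∫ g(z) / (z - w) dν(z)`, exist for bounded `g` and
`‖R(g)‖ ≤ C ‖g‖` in `L^{τ'}(ν)`; the orbit of `x` extends to `Λ : L^q(ν) → Y`. By duality `v ∘ Λ` has a density `ρ` in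
`L^{q'}`, and `g ↦ v (R(g) u)` a density `G` in `L^τ`, with norms `≤ C ‖v‖`, `≤ C ‖v‖ ‖u‖`. Distribute the coefficients
such that `∑ ‖u j‖^τ`, `∑ ‖v j‖^τ`, `∑ ‖v j‖^{q'}` are finite. Then `ρ(z) = (ρ j (z))` is in `ℓ²` and the matrix
`G(z) = (G i j (z))` is a compact operator on `ℓ²` for `ν`-almost every `z`. Where `1 - G(z)` is invertible let
`η = 1`, `ξ = (1 - G)⁻¹ ρ`, elsewhere `η = 0` and `ξ(z)` the projection of a basis vector to the kernel of `1 - G(z)`,
a measurable function of `z`. For multipliers `g` let `X(g) = Λ(g η) + ∑ j R(g ξ j) u j`; then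
`(N + K - c) X(g) = X((z - c) g)` and `v i (X(g)) = ∫ g ξ i dν`, so that not all `X(g)` vanish. Vectors of this kind
for `T` and for its adjoint at two different points annihilate each other across the commutant.

From the library: `Y271.RO`, `R277.SP` (functional calculus, annihilation).
-/

set_option autoImplicit false

open MeasureTheory Metric
open scoped ENNReal NNReal

namespace Pool.Agent.Results.MP_5ac32f_an.ThickOrbits

section Defs

variable {X : Type} [NormedAddCommGroup X] [NormedSpace ℂ X]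

/-- `T` has a closed subspace, neither `{0}` nor the whole space, which is invariant under every
bounded operator commuting with `T`. -/
def HasHyperinvariant (T : X →L[ℂ] X) : Prop :=
  ∃ V : Submodule ℂ X, IsClosed (V : Set X) ∧ V ≠ ⊥ ∧ V ≠ ⊤ ∧
    ∀ Q : X →L[ℂ] X, Q * T = T * Q → ∀ x ∈ V, Q x ∈ V

/-- There is a nonzero vector `w` with `‖(T - c)^n w‖ ≤ C r ^ n` for all `n`. -/
def HasLocalVector (T : X →L[ℂ] X) (c : ℂ) (r : ℝ) : Prop :=
  ∃ (w : X) (C : ℝ), w ≠ 0 ∧ ∀ n : ℕ, ‖((T - c • (1 : X →L[ℂ] X)) ^ n) w‖ ≤ C * r ^ n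

/-- The adjoint `f ↦ f ∘ T` on the dual space. -/
noncomputable def adjoint (T : X →L[ℂ] X) : (X →L[ℂ] ℂ) →L[ℂ] (X →L[ℂ] ℂ) :=
  (ContinuousLinearMap.compL ℂ X X ℂ).flip T

/-- The algebra homomorphism `Φ` is a bounded functional calculus of `N` for the continuous functions on
the compact set `S`. -/
structure IsCalculus (S : Set ℂ) (Φ : C(S, ℂ) →ₐ[ℂ] (X →L[ℂ] X)) (N : X →L[ℂ] X) : Prop where
  compact : IsCompact S
  bounded : ∃ M : ℝ, ∀ (h : C(S, ℂ)) (B : ℝ), 0 ≤ B → (∀ s, ‖h s‖ ≤ B) → ‖Φ h‖ ≤ M * B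
  identity : ∀ h : C(S, ℂ), (∀ s : S, h s = s) → Φ h = N

/-- `K x = ∑ v j (x) u j` with `∑ (‖v j‖ ‖u j‖)^p < ∞`. -/
def PNuclear (p : ℝ) (K : X →L[ℂ] X) : Prop :=
  ∃ (u : ℕ → X) (v : ℕ → (X →L[ℂ] ℂ)),
    (Summable fun j => (‖v j‖ * ‖u j‖) ^ p) ∧ ∀ x, HasSum (fun j => v j x • u j) (K x)

/-- There are a finite measure `ν` on `S` with a bounded potential of order `τ`, `1 < τ < 2`, and
`q ≥ τ / (τ - 1)` with `p (1 / τ + 1 - 1 / q) ≤ 1` such that `‖A h‖ ≤ C ‖h‖` with the norm of `L^q(ν)`, for the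
restrictions `h` to `S` of the continuous functions on the plane. -/
def ThickOrbit (S : Set ℂ) (p : ℝ) (A : C(S, ℂ) → X) : Prop :=
  ∃ (ν : Measure ℂ) (τ q C : ℝ) (D : ℝ≥0), ν Set.univ ≠ ⊤ ∧ ν Sᶜ = 0 ∧ 1 < τ ∧ τ < 2 ∧
    τ / (τ - 1) ≤ q ∧ p * (1 / τ + 1 - 1 / q) ≤ 1 ∧
    (∀ w ∈ S, ∫⁻ z, ‖z - w‖ₑ ^ (-τ) ∂ν ≤ D) ∧
    ∀ h : C(ℂ, ℂ), ‖A (h.restrict S)‖ ≤ C * (∫ z, ‖h z‖ ^ q ∂ν) ^ (1 / q)

/-- `A h ≠ 0` for some continuous function `h` on the plane which vanishes outside the open disc of centre `c`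
and radius `r`. -/
def Charges (S : Set ℂ) (A : C(S, ℂ) → X) (c : ℂ) (r : ℝ) : Prop :=
  ∃ h : C(ℂ, ℂ), (∀ z, z ∉ ball c r → h z = 0) ∧ A (h.restrict S) ≠ 0

/-- There are such vectors `w` for every disc which is charged by `A`. -/
def LocalVectors (S : Set ℂ) (A : C(S, ℂ) → X) (T : X →L[ℂ] X) : Prop :=
  ∀ (c : ℂ) (r : ℝ), 0 < r → Charges S A c r → HasLocalVector T c r

/-- `A = N + K`, where `N` has a bounded functional calculus, some nonzero vector has a thick orbit for the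
exponent `p > 0`, and `K` is `p`-nuclear. -/
def ThickOperator (A : X →L[ℂ] X) : Prop :=
  ∃ (S : Set ℂ) (Φ : C(S, ℂ) →ₐ[ℂ] (X →L[ℂ] X)) (N K : X →L[ℂ] X) (x : X) (p : ℝ),
    A = N + K ∧ IsCalculus S Φ N ∧ x ≠ 0 ∧ 0 < p ∧ ThickOrbit S p (fun h => Φ h x) ∧ PNuclear p K

/-- `T J = J A` for a thick operator `A` on some Banach space `Y` and an injective bounded operator `J` from
`Y` to `X`. -/
def HasThickPart (T : X →L[ℂ] X) : Prop :=
  ∃ (Y : Type) (_ : NormedAddCommGroup Y) (_ : NormedSpace ℂ Y) (_ : CompleteSpace Y)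
    (A : Y →L[ℂ] Y) (J : Y →L[ℂ] X),
    Function.Injective J ∧ (∀ y, T (J y) = J (A y)) ∧ ThickOperator A

end Defs

lemma fc {X : Type} [NormedAddCommGroup X] [NormedSpace ℂ X] {S : Set ℂ} [CompactSpace S]
    {Φ : C(S, ℂ) →ₐ[ℂ] (X →L[ℂ] X)} {N : X →L[ℂ] X} (hΦ : IsCalculus S Φ N) :
    ∃ M, Pool.Agent.R277.SP.FC Φ N M := by
  obtain ⟨M, hM⟩ := hΦ.bounded
  refine ⟨|M|, abs_nonneg M, fun h => ?_, hΦ.identity _ fun s => rfl⟩
  exact (hM h ‖h‖ (norm_nonneg _) fun s => h.norm_coe_le_norm s).trans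
    (mul_le_mul_of_nonneg_right (le_abs_self M) (norm_nonneg _))

lemma plt {p τ q : ℝ} (hτ : 1 < τ) (hτ2 : τ < 2) (hq : τ / (τ - 1) ≤ q)
    (hpq : p * (1 / τ + 1 - 1 / q) ≤ 1) : p < 1 := by
  have h1 : 0 < τ - 1 := by linarith
  have h2 : 2 < τ / (τ - 1) := by
    rw [lt_div_iff₀ h1]
    linarith
  have h3 : 0 < q := by linarith
  have h4 : 1 / q < 1 / 2 := one_div_lt_one_div_of_lt (by norm_num) (by linarith)
  have h5 : 1 / 2 < 1 / τ := one_div_lt_one_div_of_lt (by linarith) hτ2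
  by_contra hcon
  push Not at hcon
  nlinarith

lemma many {X : Type} [NormedAddCommGroup X] [NormedSpace ℂ X] [CompleteSpace X]
    {A : X →L[ℂ] X} (h : ThickOperator A) : Pool.Agent.N812.BB.Many A := by
  obtain ⟨S, Φ, N, K, x, p, rfl, hΦ, hx0, hp, ⟨ν, τ, q, C, D, h1, h2, h3, h4, h5, h6, h7, h8⟩, hK⟩ := h
  have : CompactSpace S := isCompact_iff_compactSpace.1 hΦ.compact
  have : IsFiniteMeasure ν := ⟨lt_top_iff_ne_top.2 h1⟩
  obtain ⟨M, hF⟩ := fc hΦ
  exact Pool.Agent.N812.BB.many hF h3 h4.le h7 h2 h5 ⟨C, h8⟩ hx0 hp h6 hK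

theorem result (X : Type) [NormedAddCommGroup X] [NormedSpace ℂ X] [CompleteSpace X]
    (T : X →L[ℂ] X) :
    (HasThickPart T → HasThickPart (adjoint T) → HasHyperinvariant T) ∧
    (∀ (S : Set ℂ) (Φ : C(S, ℂ) →ₐ[ℂ] (X →L[ℂ] X)) (N K : X →L[ℂ] X) (x : X) (y : X →L[ℂ] ℂ)
      (p : ℝ), T = N + K → IsCalculus S Φ N → 0 < p → PNuclear p K →
      ThickOrbit S p (fun h => Φ h x) → ThickOrbit S p (fun h => y.comp (Φ h)) →
      LocalVectors S (fun h => Φ h x) T ∧ LocalVectors S (fun h => y.comp (Φ h)) (adjoint T) ∧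
      (x ≠ 0 → y ≠ 0 → HasHyperinvariant T)) := by
  refine ⟨?_, ?_⟩
  · rintro ⟨Y, i1, i2, i3, A, J, hJ, hT, hA⟩ ⟨V, k1, k2, k3, B, J', hJ', hT', hB⟩
    exact Pool.Agent.N812.BB.main hJ hJ' hT hT' (many hA) (many hB)
  · intro S Φ N K x y p hTe hΦ hp hK hx hy
    subst hTe
    obtain ⟨ν, τ, q, C, D, a1, a2, a3, a4, a5, a6, a7, a8⟩ := hx
    obtain ⟨ν', τ', q', C', D', b1, b2, b3, b4, b5, b6, b7, b8⟩ := hy
    have : CompactSpace S := isCompact_iff_compactSpace.1 hΦ.compact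
    have : IsFiniteMeasure ν := ⟨lt_top_iff_ne_top.2 a1⟩
    have : IsFiniteMeasure ν' := ⟨lt_top_iff_ne_top.2 b1⟩
    obtain ⟨M, hF⟩ := fc hΦ
    have hp1 : p < 1 := plt a3 a4 a5 a6
    have hK' : Pool.Agent.N812.BA.PNuc p K := hK
    have hx' : Pool.Agent.N812.BB.AcV ν Φ q x := ⟨C, a8⟩
    have hy' : Pool.Agent.N812.BB.AcV ν' (Pool.Agent.R277.SP.adΦ Φ) q' y := ⟨C', b8⟩
    have had : adjoint (N + K) = Pool.Agent.R277.SP.ad N + Pool.Agent.R277.SP.ad K := by
      ext y x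
      show y (N x + K x) = y (N x) + y (K x)
      rw [map_add]
    refine ⟨fun c r hr hc => ?_, fun c r hr hc => ?_, fun hx0 hy0 => ?_⟩
    · obtain ⟨h, h1, h2⟩ := hc
      exact ((Pool.Agent.N812.BB.one hF a3 a4.le a7 a2 a5 hx' hp a6 hK').1 c r h hr h1 h2).pow
    · obtain ⟨h, h1, h2⟩ := hc
      rw [had]
      exact ((Pool.Agent.N812.BB.one hF.dual b3 b4.le b7 b2 b5 hy' hp b6
        (hK'.dual hp hp1)).1 c r h hr h1 h2).pow
    · refine Pool.Agent.N812.BB.main (J := ContinuousLinearMap.id ℂ X)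
        (J' := ContinuousLinearMap.id ℂ (X →L[ℂ] ℂ)) (A := N + K)
        (B := Pool.Agent.R277.SP.ad N + Pool.Agent.R277.SP.ad K) (fun _ _ h => h) (fun _ _ h => h)
        (fun _ => rfl) (fun w => ?_) ?_ ?_
      · exact congrArg (fun Q => Q w) had
      · exact Pool.Agent.N812.BB.many hF a3 a4.le a7 a2 a5 hx' hx0 hp a6 hK'
      · exact Pool.Agent.N812.BB.many hF.dual b3 b4.le b7 b2 b5 hy' hy0 hp b6 (hK'.dual hp hp1)

end Pool.Agent.Results.MP_5ac32f_an.ThickOrbits
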